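import Pool.Agent.Lib.MP_fe24f9_co.Dg.Build

set_option autoImplicit false

namespace Pool.Agent.Results.MP_fe24f9_co.Degenerate

open Pool.Agent.Lib.MP_fe24f9_co.Dg

/-- There is a `d`-degenerate graph on `n` vertices with `f ≥ t + 1` exactly when
`n ≥ C(t+2, 2) + 3` and `N(t)` is at most the largest size of a `d`-degenerate graph of order `n`. -/
theorem result (d t n : ℕ) (ht : 1 ≤ t) :
    (∃ G : SimpleGraph (Fin n), Degen d G ∧ t + 1 ≤ fdel G) ↔ (t + 2).choose 2 + 3 ≤ n ∧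
      t ^ 3 + 6 * t ^ 2 + 17 * t + 12 ≤ 6 * ∑ i ∈ Finset.range n, min i d :=
  main d t n ht

end Pool.Agent.Results.MP_fe24f9_co.Degenerate
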