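import Pool.Agent.Lib.MP_fe24f9_co.Constr

namespace Pool.Agent.Results.MP_fe24f9_co.GirthFive

open Finset Pool.Agent.Lib.MP_fe24f9_co

/-- The least order of a graph of girth at least five with `f ≥ t + 1` is
`∑_{j = 0}^{t} max(0, C(j+2, 2) + j + 2 - t)` (the subtraction on naturals is truncated). -/
theorem result (t : ℕ) :
    IsLeast {n : ℕ | ∃ G : SimpleGraph (Fin n), 5 ≤ G.egirth ∧ t + 1 ≤ fdel G}
      (∑ j ∈ Finset.range (t + 1), ((j + 2).choose 2 + j + 2 - t)) := by
  have hM : ∑ j ∈ range (t + 1), ((j + 2).choose 2 + j + 2 - t) =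
      ∑ j ∈ range (t + 1), (a j + 1 - (t - j)) := by
    refine sum_congr rfl fun j hj => ?_
    have := mem_range.1 hj
    unfold a
    omega
  constructor
  · obtain ⟨G, hG, hb⟩ := exists_extremal t _ hM
    refine ⟨G, hG, ?_⟩
    by_contra hc
    exact (fdel_le_iff G).1 (by omega) hb
  · rintro n ⟨G, hG, hf⟩
    have hb : Bad G t univ := by
      by_contra hc
      have := (fdel_le_iff G).2 hc
      omega
    have := peel (codeg_of_girth hG) t univ ∅ 0 hb (by simp)
    rw [hM]
    simpa using this

end Pool.Agent.Results.MP_fe24f9_co.GirthFive
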