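import Pool.Agent.Lib.MP_fe24f9_co.Kst

namespace Pool.Agent.Results.MP_fe24f9_co.KsrFree

open Finset Pool.Agent.Lib.MP_fe24f9_co

/-- For `s ≥ 3`, every `K_{s,r}`-free graph on `n` vertices has
`f ^ (2 s) ≤ (12 ^ s r + (12 s) ^ s) n ^ (s - 1)`. -/
theorem result (s r n : ℕ) (hs : 3 ≤ s) (G : SimpleGraph (Fin n))
    (hG : (completeBipartiteGraph (Fin s) (Fin r)).Free G) :
    fdel G ^ (2 * s) ≤ (12 ^ s * r + (12 * s) ^ s) * n ^ (s - 1) := by
  obtain ⟨s, rfl⟩ : ∃ s', s = s' + 1 := ⟨s - 1, by omega⟩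
  rcases Nat.eq_zero_or_pos (fdel G) with h0 | h0
  · rw [h0, zero_pow (by omega)]
    exact Nat.zero_le _
  · obtain ⟨t, ht⟩ : ∃ t, fdel G = t + 1 := ⟨fdel G - 1, by omega⟩
    have hb : Bad G t univ := by
      by_contra hc
      have := (fdel_le_iff G).2 hc
      omega
    rw [ht, Nat.add_sub_cancel]
    refine (kst_bound (by omega) hG hb).trans (Nat.mul_le_mul_right _ (Nat.add_le_add_left ?_ _))
    exact (Nat.pow_le_pow_left (by omega) _).trans (Nat.pow_le_pow_right (by omega) (by omega))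

end Pool.Agent.Results.MP_fe24f9_co.KsrFree
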